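import Pool.Agent.R228.BN.C

/-!
# A quasiregular map of a domain of `ℝ³` for which the image of the branch set has Nagata dimension
# at least two
-/

set_option autoImplicit false

namespace Pool.Agent.Results.MP_00e59b_an.BranchImage

open Pool.Agent.R228.BN Pool.Agent.R228.ND

/-- The negated form of Q1, with `n = 3`: there are a domain `Ω` of `ℝ³` and a quasiregular map
`f : Ω → ℝ³` with `dim_N f(B_f) ≥ 2 = n - 1`. -/
theorem result : ∃ (f : EuclideanSpace ℝ (Fin 3) → EuclideanSpace ℝ (Fin 3))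
    (Ω : Set (EuclideanSpace ℝ (Fin 3))),
    QRLip f Ω ∧ (2 : ℕ∞) ≤ nagataDim (f '' branchSet f Ω) :=
  ⟨F, Om, qr, dim_ge⟩

end Pool.Agent.Results.MP_00e59b_an.BranchImage
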